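import Pool.Agent.ZN.LO

/-!
Blocks of consecutive frequencies at the scales `45^j`.
-/

open Finset Real

namespace Pool.Agent.ZN

/-- half length of the blocks of scale `j` -/
def hh (j : ℕ) : ℕ := (45 ^ j - 1) / 2

lemma ell_eq (j : ℕ) : 45 ^ j = 2 * hh j + 1 := by
  have h : Odd (45 ^ j) := Odd.pow (by decide)
  obtain ⟨m, hm⟩ := h
  unfold hh
  omega

/-- the pairs (scale, block number) -/
def Idx (L : ℕ) : Finset (ℕ × ℕ) :=
  ((range (L + 1)) ×ˢ (range (4 * 225 ^ L))).filter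
    (fun p => 225 ^ (L - p.1) ≤ p.2 ∧ p.2 < 4 * 225 ^ (L - p.1))

lemma mem_Idx (L : ℕ) (p : ℕ × ℕ) : p ∈ Idx L ↔
    p.1 ≤ L ∧ 225 ^ (L - p.1) ≤ p.2 ∧ p.2 < 4 * 225 ^ (L - p.1) := by
  unfold Idx
  rw [mem_filter, mem_product, mem_range, mem_range]
  constructor
  · rintro ⟨⟨h1, _⟩, h3, h4⟩
    exact ⟨by omega, h3, h4⟩
  · rintro ⟨h1, h3, h4⟩
    refine ⟨⟨by omega, lt_of_lt_of_le h4 ?_⟩, h3, h4⟩
    exact Nat.mul_le_mul_left 4 (Nat.pow_le_pow_right (by norm_num) (Nat.sub_le _ _))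

/-- the block of frequencies with index `p` -/
def blk (p : ℕ × ℕ) : Finset ℕ := Ico (p.2 * 45 ^ p.1 - hh p.1) (p.2 * 45 ^ p.1 + hh p.1 + 1)

lemma hh_lt (j : ℕ) : hh j < 45 ^ j := by have := ell_eq j; omega

lemma card_blk (p : ℕ × ℕ) (hp : 1 ≤ p.2) : (blk p).card = 45 ^ p.1 := by
  unfold blk
  rw [Nat.card_Ico]
  have h1 := ell_eq p.1
  have h2 : 45 ^ p.1 ≤ p.2 * 45 ^ p.1 := Nat.le_mul_of_pos_left _ hp
  omega

/-- the cosine sum of a block -/
noncomputable def D (p : ℕ × ℕ) (x : ℝ) : ℝ := ∑ k ∈ blk p, cos (k * x)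

lemma tele (a n : ℕ) (x : ℝ) : 2 * sin (x / 2) * ∑ k ∈ Ico a (a + n), cos (k * x) =
    sin ((a + n - 1 / 2) * x) - sin ((a - 1 / 2) * x) := by
  induction n with
  | zero => simp
  | succ n ih =>
    rw [← add_assoc, Finset.sum_Ico_succ_top (by omega), mul_add, ih]
    have h : 2 * sin (x / 2) * cos (((a + n : ℕ) : ℝ) * x) =
        sin (((a + n : ℕ) : ℝ) * x + x / 2) - sin (((a + n : ℕ) : ℝ) * x - x / 2) := by
      rw [sin_add, sin_sub]; ring
    rw [h]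
    push_cast
    have e1 : (a + n : ℝ) * x + x / 2 = (a + (n + 1) - 1 / 2) * x := by ring
    have e2 : (a + n : ℝ) * x - x / 2 = (a + n - 1 / 2) * x := by ring
    rw [e1, e2]; ring

lemma D_eq (p : ℕ × ℕ) (hp : 1 ≤ p.2) (x : ℝ) : 2 * sin (x / 2) * D p x =
    2 * cos (p.2 * (45 ^ p.1 * x)) * sin (45 ^ p.1 * x / 2) := by
  unfold D blk
  have h1 := ell_eq p.1
  have h2 : 45 ^ p.1 ≤ p.2 * 45 ^ p.1 := Nat.le_mul_of_pos_left _ hp
  have h3 : p.2 * 45 ^ p.1 + hh p.1 + 1 = (p.2 * 45 ^ p.1 - hh p.1) + 45 ^ p.1 := by omega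
  rw [h3, tele]
  have h4 : ((p.2 * 45 ^ p.1 - hh p.1 : ℕ) : ℝ) = p.2 * 45 ^ p.1 - hh p.1 := by
    rw [Nat.cast_sub (by omega)]; push_cast; ring
  have h5 : ((45 : ℝ) ^ p.1) = 2 * hh p.1 + 1 := by exact_mod_cast h1
  rw [h4]
  push_cast
  have e1 : (p.2 * 45 ^ p.1 - (hh p.1 : ℝ) + 45 ^ p.1 - 1 / 2) * x =
      p.2 * (45 ^ p.1 * x) + 45 ^ p.1 * x / 2 := by
    rw [h5]; ring
  have e2 : (p.2 * 45 ^ p.1 - (hh p.1 : ℝ) - 1 / 2) * x =
      p.2 * (45 ^ p.1 * x) - 45 ^ p.1 * x / 2 := by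
    rw [h5]; ring
  rw [e1, e2, sin_add, sin_sub]
  ring

/-- the doubling trick -/
lemma good_or (y : ℝ) : 1 / 2 ≤ |cos y| ∨ 1 / 2 ≤ |cos (2 * y)| := by
  by_contra h
  push Not at h
  obtain ⟨h1, h2⟩ := h
  rw [cos_two_mul] at h2
  have h3 : (cos y) ^ 2 < (1 / 2) ^ 2 := by
    rw [← sq_abs]
    exact pow_lt_pow_left₀ h1 (abs_nonneg _) (by norm_num)
  rw [abs_lt] at h2
  nlinarith [h2.1]

/-- the good blocks of scale `j` -/
noncomputable def Good (L j : ℕ) (x : ℝ) : Finset (ℕ × ℕ) :=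
  (Idx L).filter (fun p => p.1 = j ∧ 1 / 2 ≤ |cos (p.2 * (45 ^ j * x))|)

lemma card_Good (L j : ℕ) (hj : j ≤ L) (x : ℝ) : 225 ^ (L - j) ≤ (Good L j x).card := by
  classical
  set B := 225 ^ (L - j) with hB
  have hBpos : 0 < B := by positivity
  let f : ℕ → ℕ × ℕ := fun b => if 1 / 2 ≤ |cos (b * (45 ^ j * x))| then (j, b) else (j, 2 * b)
  have h1 : (Ico B (2 * B)).card = B := by rw [Nat.card_Ico]; omega
  rw [← h1]
  apply Finset.card_le_card_of_injOn f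
  · intro b hb
    have hb' := mem_Ico.1 (mem_coe.1 hb)
    rw [mem_coe]
    unfold Good
    rw [mem_filter, mem_Idx]
    by_cases h : 1 / 2 ≤ |cos (b * (45 ^ j * x))|
    · have : f b = (j, b) := by simp only [f]; rw [if_pos h]
      rw [this]
      refine ⟨⟨hj, hb'.1, ?_⟩, rfl, h⟩
      show b < 4 * 225 ^ (L - j)
      rw [← hB]; omega
    · have h2 : f b = (j, 2 * b) := by simp only [f]; rw [if_neg h]
      rw [h2]
      refine ⟨⟨hj, ?_, ?_⟩, rfl, ?_⟩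
      · show 225 ^ (L - j) ≤ 2 * b
        rw [← hB]; omega
      · show 2 * b < 4 * 225 ^ (L - j)
        rw [← hB]; omega
      · have := (good_or (b * (45 ^ j * x))).resolve_left h
        show 1 / 2 ≤ |cos (((2 * b : ℕ) : ℝ) * (45 ^ j * x))|
        push_cast
        rw [mul_assoc]
        exact this
  · intro b hb b' hb' hbb
    have hb1 := mem_Ico.1 (mem_coe.1 hb)
    have hb2 := mem_Ico.1 (mem_coe.1 hb')
    simp only [f] at hbb
    split_ifs at hbb <;> simp only [Prod.mk.injEq, true_and] at hbb <;> omega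

/-- lower bound for the good blocks -/
lemma D_lower (j : ℕ) (x : ℝ) (hx : 0 < x) (hx2 : 45 ^ j * x ≤ π) (p : ℕ × ℕ) (hp1 : p.1 = j)
    (hp : 1 ≤ p.2) (hg : 1 / 2 ≤ |cos (p.2 * (45 ^ j * x))|) : 45 ^ j / π ≤ |D p x| := by
  have h := D_eq p hp x
  rw [hp1] at h
  have hxpi : x ≤ π := by
    have h1 : (1 : ℝ) ≤ 45 ^ j := one_le_pow₀ (by norm_num)
    nlinarith
  have hs0 : 0 < sin (x / 2) := sin_pos_of_pos_of_lt_pi (by linarith) (by linarith [pi_pos])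
  have hs1 : sin (x / 2) ≤ x / 2 := sin_le (by linarith)
  have hs2 : 2 / π * (45 ^ j * x / 2) ≤ sin (45 ^ j * x / 2) :=
    mul_le_sin (by positivity) (by linarith)
  have hs3 : 0 ≤ sin (45 ^ j * x / 2) := le_trans (by positivity) hs2
  have habs : 2 * sin (x / 2) * |D p x| =
      2 * |cos (p.2 * (45 ^ j * x))| * sin (45 ^ j * x / 2) := by
    have := congrArg abs h
    rw [abs_mul, abs_mul, abs_mul, abs_mul, abs_of_pos hs0, abs_of_nonneg hs3] at this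
    simpa using this
  have h1 : 45 ^ j * x / π ≤ 2 * sin (x / 2) * |D p x| := by
    rw [habs]
    have h2 : 45 ^ j * x / π = 2 / π * (45 ^ j * x / 2) := by ring
    rw [h2]
    nlinarith
  have h2 : 2 * sin (x / 2) * |D p x| ≤ x * |D p x| := by
    apply mul_le_mul_of_nonneg_right _ (abs_nonneg _)
    linarith
  have h3 : 45 ^ j * x / π ≤ x * |D p x| := h1.trans h2
  have h4 : 45 ^ j * x / π = x * (45 ^ j / π) := by ring
  rw [h4] at h3
  exact le_of_mul_le_mul_left h3 hx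

/-- the set of `S` for which `x` is bad -/
lemma count_bad (L j : ℕ) (hj : j ≤ L) (x : ℝ) (hx1 : π / 45 ^ (j + 1) < x)
    (hx2 : x ≤ π / 45 ^ j) :
    ((((Idx L).powerset.filter (fun S => 2 * sin (x / 2) * |∑ p ∈ S, D p x + 1 / 2| ≤ 1)).card : ℕ)
      : ℝ) ≤ 142 * (2 ^ (Idx L).card / 15 ^ (L - j)) := by
  have hx : 0 < x := lt_of_le_of_lt (by positivity) hx1
  have hx3 : 45 ^ j * x ≤ π := by
    rw [le_div_iff₀ (by positivity)] at hx2; linarith
  have hGI : Good L j x ⊆ Idx L := Finset.filter_subset _ _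
  have hd : (0 : ℝ) < 45 ^ j / π := by positivity
  have hG : ∀ p ∈ Good L j x, 45 ^ j / π ≤ |D p x| := by
    intro p hp
    unfold Good at hp
    rw [mem_filter, mem_Idx] at hp
    refine D_lower j x hx hx3 p hp.2.1 (le_trans ?_ hp.1.2.1) hp.2.2
    exact Nat.one_le_pow _ _ (by norm_num)
  have hr : (45 : ℝ) ^ (j + 1) < (142 : ℕ) * (45 ^ j / π) := by
    have h1 : π < 3.15 := pi_lt_d2
    have h2 : (142 : ℕ) * ((45 : ℝ) ^ j / π) = 142 * 45 ^ j / π := by push_cast; ring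
    rw [h2, lt_div_iff₀ pi_pos, pow_succ]
    have h3 : (0 : ℝ) < 45 ^ j := by positivity
    nlinarith
  have h := littlewood_offord' (Idx L) (Good L j x) hGI (fun p => D p x) (45 ^ j / π) hd hG
    (225 ^ (L - j)) (Nat.one_le_pow _ _ (by norm_num)) (card_Good L j hj x) 142
    (-1 / 2 - 45 ^ (j + 1) / 2) (45 ^ (j + 1)) hr
  have hsq : Real.sqrt ((225 ^ (L - j) : ℕ) : ℝ) = 15 ^ (L - j) := by
    push_cast
    rw [show (225 : ℝ) = 15 ^ 2 by norm_num, ← pow_mul, mul_comm, pow_mul]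
    exact Real.sqrt_sq (by positivity)
  rw [hsq] at h
  refine le_trans ?_ h
  apply Nat.cast_le.2
  apply Finset.card_le_card
  intro S hS
  rw [mem_filter] at hS ⊢
  refine ⟨hS.1, ?_⟩
  have hs2 : 2 / π * (x / 2) ≤ sin (x / 2) := by
    apply mul_le_sin (by positivity)
    have h1 : (1 : ℝ) ≤ 45 ^ j := one_le_pow₀ (by norm_num)
    nlinarith
  have hs3 : 1 < 45 ^ (j + 1) * sin (x / 2) := by
    rw [div_lt_iff₀ (by positivity)] at hx1
    have h1 : 1 < 45 ^ (j + 1) * (2 / π * (x / 2)) := by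
      have h2 : 45 ^ (j + 1) * (2 / π * (x / 2)) = x * 45 ^ (j + 1) / π := by ring
      rw [h2, lt_div_iff₀ pi_pos]; linarith
    have h2 : (0 : ℝ) < 45 ^ (j + 1) := by positivity
    nlinarith
  set y := |∑ p ∈ S, D p x + 1 / 2| with hy
  have hy0 : 0 ≤ y := abs_nonneg _
  have hy1 : y ≤ 45 ^ (j + 1) / 2 := by
    have h1 := hS.2
    have h2 : (0 : ℝ) < 45 ^ (j + 1) := by positivity
    by_contra hcon
    push Not at hcon
    have h3 : 45 ^ (j + 1) * (2 * sin (x / 2) * y) ≤ 45 ^ (j + 1) := by nlinarith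
    have h4 : 2 * y < 45 ^ (j + 1) * (2 * sin (x / 2) * y) := by
      have : 0 < y := lt_of_le_of_lt (by positivity) hcon
      nlinarith
    linarith
  have := abs_le.1 (hy ▸ hy1 : |∑ p ∈ S, D p x + 1 / 2| ≤ _)
  constructor
  · linarith [this.1]
  · linarith [this.2]

end Pool.Agent.ZN
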