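import Pool.Agent.ZN.Zer

/-!
The bound for the number of zeros in `(0,π]`.
-/

open Finset Real MeasureTheory Polynomial

namespace Pool.Agent.ZN

/-- the function `2 sin(x/2) f(x)` -/
noncomputable def hf (S : Finset (ℕ × ℕ)) (ν x : ℝ) : ℝ :=
  sin (ν * x) - 2 * sin (x / 2) * (Q S).eval (cos x)

noncomputable def hf1 (S : Finset (ℕ × ℕ)) (ν x : ℝ) : ℝ :=
  ν * cos (ν * x) + cos (x / 2) * (2 * (1 - cos x) * (derivative (Q S)).eval (cos x) -
    (Q S).eval (cos x))

noncomputable def hf2 (S : Finset (ℕ × ℕ)) (ν x : ℝ) : ℝ :=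
  -ν ^ 2 * sin (ν * x) + sin (x / 2) * (1 / 2 * (Q S).eval (cos x) +
    (2 + 4 * cos x) * (derivative (Q S)).eval (cos x) -
    2 * (1 - cos x ^ 2) * (derivative (derivative (Q S))).eval (cos x))

lemma sin_half (x : ℝ) : sin x = 2 * sin (x / 2) * cos (x / 2) := by
  have := sin_two_mul (x / 2)
  rw [show 2 * (x / 2) = x by ring] at this
  exact this

lemma cos_half (x : ℝ) : cos x = 2 * cos (x / 2) ^ 2 - 1 := by
  have := cos_two_mul (x / 2)
  rw [show 2 * (x / 2) = x by ring] at this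
  exact this

lemma sin_half_sq (x : ℝ) : 4 * sin (x / 2) ^ 2 = 2 * (1 - cos x) := by
  have h1 := cos_half x
  have h2 := sin_sq_add_cos_sq (x / 2)
  nlinarith

lemma eval_cos_deriv (P : ℝ[X]) (x : ℝ) :
    HasDerivAt (fun x => P.eval (cos x)) ((derivative P).eval (cos x) * (-sin x)) x :=
  (P.hasDerivAt (cos x)).comp x (hasDerivAt_cos x)

lemma hf_deriv (S : Finset (ℕ × ℕ)) (ν x : ℝ) : HasDerivAt (hf S ν) (hf1 S ν x) x := by
  have a1 : HasDerivAt (fun x => ν * x) (ν * 1) x := (hasDerivAt_id x).const_mul ν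
  have a2 : HasDerivAt (fun x : ℝ => x / 2) (1 / 2) x := (hasDerivAt_id x).div_const 2
  have a3 := (a2.sin.const_mul 2).mul (eval_cos_deriv (Q S) x)
  have a4 := a1.sin.sub a3
  have e : hf1 S ν x = cos (ν * x) * (ν * 1) - (2 * (cos (x / 2) * (1 / 2)) *
      (Q S).eval (cos x) + 2 * sin (x / 2) * ((derivative (Q S)).eval (cos x) * (-sin x))) := by
    unfold hf1
    rw [← sin_half_sq x, sin_half x]
    ring
  rw [e]
  exact a4

lemma hf1_deriv (S : Finset (ℕ × ℕ)) (ν x : ℝ) : HasDerivAt (hf1 S ν) (hf2 S ν x) x := by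
  have a1 : HasDerivAt (fun x => ν * x) (ν * 1) x := (hasDerivAt_id x).const_mul ν
  have a2 : HasDerivAt (fun x : ℝ => x / 2) (1 / 2) x := (hasDerivAt_id x).div_const 2
  have b1 : HasDerivAt (fun x => 2 * (1 - cos x)) (2 * (0 - -sin x)) x :=
    ((hasDerivAt_const x (1 : ℝ)).sub (hasDerivAt_cos x)).const_mul 2
  have b2 := (b1.mul (eval_cos_deriv (derivative (Q S)) x)).sub (eval_cos_deriv (Q S) x)
  have a4 := (a1.cos.const_mul ν).add (a2.cos.mul b2)
  have e : hf2 S ν x = ν * (-sin (ν * x) * (ν * 1)) + ((-sin (x / 2) * (1 / 2)) *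
      (2 * (1 - cos x) * (derivative (Q S)).eval (cos x) - (Q S).eval (cos x)) +
      cos (x / 2) * ((2 * (0 - -sin x)) * (derivative (Q S)).eval (cos x) +
        2 * (1 - cos x) * ((derivative (derivative (Q S))).eval (cos x) * (-sin x)) -
        (derivative (Q S)).eval (cos x) * (-sin x))) := by
    unfold hf2
    rw [sin_half x]
    have h1 := cos_half x
    have h2 : cos (x / 2) ^ 2 = (1 + cos x) / 2 := by linarith
    linear_combination (norm := ring_nf) (-sin (x / 2) * (6 * (derivative (Q S)).eval (cos x) -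
      4 * (1 - cos x) * (derivative (derivative (Q S))).eval (cos x))) * h2
  rw [e]
  exact a4

lemma hf_W (S : Finset (ℕ × ℕ)) (ν x : ℝ) :
    hf2 S ν x + ν ^ 2 * hf S ν x = sin (x / 2) * (Wp S ν).eval (cos x) := by
  unfold hf2 hf Wp
  simp only [eval_sub, eval_add, eval_mul, eval_C, eval_X, eval_pow, eval_one, eval_ofNat]
  ring

lemma bad_of_zero (S : Finset (ℕ × ℕ)) (ν x : ℝ) (hx : x ∈ Set.Ioc 0 π) (h : hf S ν x = 0) :
    x ∈ Bad S := by
  refine ⟨hx, ?_⟩
  have hs : 0 < sin (x / 2) := sin_pos_of_pos_of_lt_pi (by linarith [hx.1])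
    (by linarith [hx.2, pi_pos])
  unfold hf at h
  rw [← Q_cos]
  have h1 : 2 * sin (x / 2) * |(Q S).eval (cos x)| = |sin (ν * x)| := by
    have h2 : sin (ν * x) = 2 * sin (x / 2) * (Q S).eval (cos x) := by linarith
    rw [h2, abs_mul, abs_mul, abs_of_pos hs]
    norm_num
  rw [h1]
  exact abs_sin_le_one _

lemma bad_iff (S : Finset (ℕ × ℕ)) (x : ℝ) (hx : x ∈ Set.Ioc 0 π) :
    x ∈ Bad S ↔ (Gp S).eval (cos x) ≤ 0 := by
  have hs : 0 < sin (x / 2) := sin_pos_of_pos_of_lt_pi (by linarith [hx.1])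
    (by linarith [hx.2, pi_pos])
  have h1 : (Gp S).eval (cos x) = (2 * sin (x / 2) * |(Q S).eval (cos x)|) ^ 2 - 1 := by
    unfold Gp
    simp only [eval_sub, eval_mul, eval_X, eval_pow, eval_one, eval_ofNat]
    rw [mul_pow, mul_pow, sq_abs, ← sin_half_sq]
    ring
  rw [h1]
  have h2 : 0 ≤ 2 * sin (x / 2) * |(Q S).eval (cos x)| := by positivity
  constructor
  · intro h
    have h3 : 2 * sin (x / 2) * |(Q S).eval (cos x)| ≤ 1 := by rw [Q_cos]; exact h.2
    nlinarith
  · intro h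
    refine ⟨hx, ?_⟩
    rw [← Q_cos]
    nlinarith

theorem zeros_count (L N : ℕ) (hN : 8 * 225 ^ L ≤ N) (S : Finset (ℕ × ℕ)) (hS : S ⊆ Idx L)
    (F : Finset ℝ) (hF : ∀ x ∈ F, x ∈ Set.Ioc 0 π ∧ hf S (N + 1 / 2) x = 0) :
    (F.card : ℝ) ≤ 2 * ((volume (Bad S)).toReal * ((N + 1) / π) + (2 * (4 * 225 ^ L) + 1)) +
      4 * 225 ^ L := by
  classical
  set ν : ℝ := N + 1 / 2 with hν
  have hνK : 2 * (4 * 225 ^ L) ≤ ν := by
    have : ((8 * 225 ^ L : ℕ) : ℝ) ≤ N := by exact_mod_cast hN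
    push_cast at this
    rw [hν]; linarith
  have hνpos : 0 < ν := by positivity
  set δ : ℝ := π / (N + 1) with hδ
  have hδpos : 0 < δ := by positivity
  have hνδ : ν * δ < π := by
    rw [hδ, hν, ← mul_div_assoc, div_lt_iff₀ (by positivity)]
    nlinarith [pi_pos]
  let idx : ℝ → ℕ := fun x => ⌈x / δ⌉₊
  let cell : ℕ → Set ℝ := fun m => Set.Ioc (((m : ℝ) - 1) * δ) (m * δ)
  have hcell : ∀ x, 0 < x → x ∈ cell (idx x) := by
    intro x hx
    have h1 : x / δ ≤ idx x := Nat.le_ceil _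
    have h2 : (idx x : ℝ) < x / δ + 1 := Nat.ceil_lt_add_one (by positivity)
    constructor
    · have : ((idx x : ℝ) - 1) < x / δ := by linarith
      rwa [lt_div_iff₀ hδpos] at this
    · rwa [div_le_iff₀ hδpos] at h1
  have hcell' : ∀ m x, x ∈ cell m → idx x = m := by
    intro m x hx
    have h1 : x / δ ≤ m := by rw [div_le_iff₀ hδpos]; exact hx.2
    have h2 : (m : ℝ) - 1 < x / δ := by rw [lt_div_iff₀ hδpos]; exact hx.1
    rcases Nat.eq_zero_or_pos m with rfl | hm
    · have : x / δ ≤ 0 := by simpa using h1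
      exact Nat.ceil_eq_zero.2 this
    · rw [Nat.ceil_eq_iff (by omega)]
      refine ⟨?_, h1⟩
      rw [Nat.cast_sub hm]
      push_cast
      exact h2
  set M := F.image idx with hM
  have hMcell : ∀ m ∈ M, 1 ≤ m ∧ cell m ⊆ Set.Ioc 0 π := by
    intro m hm
    obtain ⟨x, hx, rfl⟩ := mem_image.1 hm
    have hx1 := (hF x hx).1
    have h0 : 0 < idx x := Nat.ceil_pos.2 (div_pos hx1.1 hδpos)
    have h1 : idx x ≤ N + 1 := by
      apply Nat.ceil_le.2
      rw [div_le_iff₀ hδpos, hδ]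
      push_cast
      rw [mul_div_cancel₀]
      · exact hx1.2
      · positivity
    refine ⟨h0, ?_⟩
    intro y hy
    have h2 : (1 : ℝ) ≤ idx x := by exact_mod_cast h0
    have h3 : (idx x : ℝ) ≤ N + 1 := by exact_mod_cast h1
    constructor
    · refine lt_of_le_of_lt ?_ hy.1
      exact mul_nonneg (by linarith) hδpos.le
    · refine hy.2.trans ?_
      calc (idx x : ℝ) * δ ≤ (N + 1) * δ := by gcongr
        _ = π := by rw [hδ]; field_simp
  -- zeros of `W`
  have hW : ∀ m : ℕ, ∃ W : Finset ℝ, (∀ x ∈ W, x ∈ cell m ∧ hf2 S ν x + ν ^ 2 * hf S ν x = 0) ∧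
      (F.filter (fun x => idx x = m)).card ≤ W.card + 2 := by
    intro m
    apply cell_zeros (((m : ℝ) - 1) * δ) (m * δ) ν hνpos _ (hf S ν) (hf1 S ν) (hf2 S ν)
      (hf_deriv S ν) (hf1_deriv S ν)
    · intro x hx
      rw [mem_filter] at hx
      have h1 := hF x hx.1
      refine ⟨?_, h1.2⟩
      have h2 := hcell x h1.1.1
      rw [hx.2] at h2
      exact h2
    · have : (m : ℝ) * δ - ((m : ℝ) - 1) * δ = δ := by ring
      rw [this]; exact hνδ
  choose W hW1 hW2 using hW
  have hFcard : F.card = ∑ m ∈ M, (F.filter (fun x => idx x = m)).card :=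
    Finset.card_eq_sum_card_image idx F
  have hdisjW : (M : Set ℕ).PairwiseDisjoint W := by
    intro m _ m' _ hne
    rw [Function.onFun, Finset.disjoint_left]
    intro x hx hx'
    exact hne ((hcell' m x (hW1 m x hx).1).symm.trans (hcell' m' x (hW1 m' x hx').1))
  have hWsum : ∑ m ∈ M, (W m).card ≤ 4 * 225 ^ L := by
    rw [← Finset.card_biUnion hdisjW]
    have hWp : Wp S ν ≠ 0 := by
      intro h
      have := Wp_one L S hS ν hνK
      rw [h] at this
      simp at this
    refine (zeros_le (Wp S ν) hWp _ ?_).trans (natDegree_Wp L S hS ν)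
    intro x hx
    obtain ⟨m, hm, hxm⟩ := mem_biUnion.1 hx
    have h1 := hW1 m x hxm
    have h2 := (hMcell m hm).2 h1.1
    refine ⟨h2, ?_⟩
    have h3 := h1.2
    rw [hf_W] at h3
    have hs : 0 < sin (x / 2) := sin_pos_of_pos_of_lt_pi (by linarith [h2.1])
      (by linarith [h2.2, pi_pos])
    exact (mul_eq_zero.1 h3).resolve_left hs.ne'
  -- the number of cells
  set M1 := M.filter (fun m => cell m ⊆ Bad S) with hM1
  set M2 := M.filter (fun m => ¬ cell m ⊆ Bad S) with hM2
  have hMsplit : M.card = M1.card + M2.card := by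
    rw [hM1, hM2, Finset.card_filter_add_card_filter_not]
  have hM2card : M2.card ≤ 2 * (4 * 225 ^ L) + 1 := by
    have hz : ∀ m ∈ M2, ∃ z ∈ cell m, (Gp S).eval (cos z) = 0 := by
      intro m hm
      rw [hM2, mem_filter] at hm
      obtain ⟨hm1, hm2⟩ := hm
      obtain ⟨x, hx, hxm⟩ := mem_image.1 hm1
      have hx1 := hF x hx
      have hxc : x ∈ cell m := by rw [← hxm]; exact hcell x hx1.1.1
      have hxb := bad_of_zero S ν x hx1.1 hx1.2
      rw [bad_iff S x hx1.1] at hxb
      obtain ⟨y, hy, hyb⟩ := Set.not_subset.1 hm2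
      have hyI := (hMcell m hm1).2 hy
      rw [bad_iff S y hyI, not_le] at hyb
      have hcont : ContinuousOn (fun z => (Gp S).eval (cos z)) (cell m) :=
        ((Gp S).continuous.comp continuous_cos).continuousOn
      have hpre : IsPreconnected (cell m) := isPreconnected_Ioc
      obtain ⟨z, hz, hz0⟩ := hpre.intermediate_value hxc hy hcont ⟨hxb, hyb.le⟩
      exact ⟨z, hz, hz0⟩
    choose! z hz1 hz2 using hz
    have hinj : Set.InjOn z (M2 : Set ℕ) := by
      intro m hm m' hm' h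
      have h1 := hcell' m _ (hz1 m (mem_coe.1 hm))
      have h2 := hcell' m' _ (hz1 m' (mem_coe.1 hm'))
      rw [← h1, ← h2, h]
    rw [← Finset.card_image_of_injOn hinj]
    have hG : Gp S ≠ 0 := by
      intro h
      have := Gp_one S
      rw [h] at this
      simp at this
    refine (zeros_le (Gp S) hG _ ?_).trans (natDegree_Gp L S hS)
    intro x hx
    obtain ⟨m, hm, rfl⟩ := mem_image.1 hx
    have hmM : m ∈ M := (mem_filter.1 hm).1
    exact ⟨(hMcell m hmM).2 (hz1 m hm), hz2 m hm⟩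
  have hM1card : (M1.card : ℝ) ≤ (volume (Bad S)).toReal * ((N + 1) / π) := by
    have h1 : volume (⋃ m ∈ M1, cell m) ≤ volume (Bad S) := by
      apply measure_mono
      intro x hx
      simp only [Set.mem_iUnion] at hx
      obtain ⟨m, hm, hx⟩ := hx
      exact (mem_filter.1 hm).2 hx
    have h2 : volume (⋃ m ∈ M1, cell m) = ∑ m ∈ M1, volume (cell m) := by
      apply measure_biUnion_finset
      · intro m _ m' _ hne
        rw [Function.onFun, Set.disjoint_left]
        intro x hx hx'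
        exact hne ((hcell' m x hx).symm.trans (hcell' m' x hx'))
      · intro m _
        exact measurableSet_Ioc
    have h3 : ∑ m ∈ M1, volume (cell m) = ENNReal.ofReal (M1.card * δ) := by
      have : ∀ m ∈ M1, volume (cell m) = ENNReal.ofReal δ := by
        intro m _
        show volume (Set.Ioc (((m : ℝ) - 1) * δ) (m * δ)) = _
        rw [Real.volume_Ioc]
        congr 1; ring
      rw [Finset.sum_congr rfl this, Finset.sum_const, nsmul_eq_mul,
        ENNReal.ofReal_mul (by positivity), ENNReal.ofReal_natCast]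
    rw [h2, h3] at h1
    have hfin : volume (Bad S) ≠ ⊤ := by
      apply ne_top_of_le_ne_top (b := volume (Set.Ioc 0 π))
      · rw [Real.volume_Ioc]; exact ENNReal.ofReal_ne_top
      · exact measure_mono (fun x hx => hx.1)
    have h4 : (M1.card : ℝ) * δ ≤ (volume (Bad S)).toReal := by
      rw [ENNReal.ofReal_le_iff_le_toReal hfin] at h1
      exact h1
    have h5 : (M1.card : ℝ) = (M1.card * δ) * ((N + 1) / π) := by
      rw [hδ]; field_simp
    rw [h5]
    apply mul_le_mul_of_nonneg_right h4 (by positivity)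
  have hfinal : F.card ≤ 4 * 225 ^ L + 2 * M.card := by
    rw [hFcard]
    calc ∑ m ∈ M, (F.filter (fun x => idx x = m)).card ≤ ∑ m ∈ M, ((W m).card + 2) :=
          Finset.sum_le_sum (fun m _ => hW2 m)
      _ = ∑ m ∈ M, (W m).card + 2 * M.card := by
          rw [Finset.sum_add_distrib, Finset.sum_const, smul_eq_mul]; ring
      _ ≤ _ := by omega
  have h1 : (F.card : ℝ) ≤ 4 * 225 ^ L + 2 * (M1.card + M2.card) := by
    rw [hMsplit] at hfinal
    exact_mod_cast hfinal
  have h2 : (M2.card : ℝ) ≤ 2 * (4 * 225 ^ L) + 1 := by exact_mod_cast hM2card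
  linarith

end Pool.Agent.ZN
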