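import Mathlib

/-!
A Littlewood-Offord inequality from Sperner's theorem, and a bound for the middle binomial
coefficient.
-/

open Finset

namespace Pool.Agent.ZN

/-- `C(2m,m)^2 (2m+1) ≤ 16^m`. -/
lemma centralBinom_sq (m : ℕ) : (Nat.centralBinom m) ^ 2 * (2 * m + 1) ≤ 16 ^ m := by
  induction m with
  | zero => simp
  | succ m ih =>
    have h := Nat.succ_mul_centralBinom_succ m
    have h2 : (m + 1) ^ 2 * ((Nat.centralBinom (m + 1)) ^ 2 * (2 * (m + 1) + 1)) ≤
        (m + 1) ^ 2 * 16 ^ (m + 1) := by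
      have h3 : (m + 1) ^ 2 * ((Nat.centralBinom (m + 1)) ^ 2 * (2 * (m + 1) + 1)) =
          ((m + 1) * Nat.centralBinom (m + 1)) ^ 2 * (2 * m + 3) := by ring
      rw [h3, h]
      have h4 : (2 * (2 * m + 1) * Nat.centralBinom m) ^ 2 * (2 * m + 3) =
          (Nat.centralBinom m ^ 2 * (2 * m + 1)) * (4 * ((2 * m + 1) * (2 * m + 3))) := by ring
      rw [h4]
      have h5 : 4 * ((2 * m + 1) * (2 * m + 3)) ≤ 16 * (m + 1) ^ 2 := by nlinarith
      calc _ ≤ 16 ^ m * (16 * (m + 1) ^ 2) := Nat.mul_le_mul ih h5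
        _ = (m + 1) ^ 2 * 16 ^ (m + 1) := by ring
    exact Nat.le_of_mul_le_mul_left h2 (by positivity)

/-- `C(g, g/2)^2 (g+1) ≤ 4^g`. -/
lemma choose_half_sq (g : ℕ) : (g.choose (g / 2)) ^ 2 * (g + 1) ≤ 4 ^ g := by
  rcases Nat.even_or_odd' g with ⟨m, rfl | rfl⟩
  · have h := centralBinom_sq m
    rw [Nat.centralBinom_eq_two_mul_choose] at h
    rw [Nat.mul_div_cancel_left m (by norm_num : 0 < 2), pow_mul]
    exact_mod_cast h
  · have h := centralBinom_sq (m + 1)
    have e : (2 * m + 1) / 2 = m := by omega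
    rw [e]
    have h1 : Nat.centralBinom (m + 1) = 2 * (2 * m + 1).choose m := by
      have := Nat.two_dvd_centralBinom_succ m
      rw [Nat.centralBinom_eq_two_mul_choose]
      have e2 : 2 * (m + 1) = (2 * m + 1) + 1 := by ring
      rw [e2, Nat.choose_succ_succ', Nat.choose_symm_half]
      ring
    rw [h1] at h
    have h2 : (2 * (2 * m + 1).choose m) ^ 2 * (2 * (m + 1) + 1) =
        4 * ((2 * m + 1).choose m ^ 2 * (2 * m + 3)) := by ring
    rw [h2] at h
    have h3 : 16 ^ (m + 1) = 4 * 4 ^ (2 * m + 1) := by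
      rw [show (16 : ℕ) = 4 ^ 2 by norm_num, ← pow_mul]
      ring
    rw [h3] at h
    have h4 := Nat.le_of_mul_le_mul_left h (by norm_num)
    refine le_trans ?_ h4
    exact Nat.mul_le_mul_left _ (by omega)

/-- real form, with a lower bound for `g`. -/
lemma choose_half_le (g B : ℕ) (hB : 1 ≤ B) (hg : B ≤ g) :
    ((g.choose (g / 2) : ℕ) : ℝ) ≤ 2 ^ g / Real.sqrt B := by
  have hB0 : (0 : ℝ) < B := by exact_mod_cast hB
  rw [le_div_iff₀ (Real.sqrt_pos.2 hB0)]
  have h := choose_half_sq g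
  have h1 : (((g.choose (g / 2) : ℕ) : ℝ)) ^ 2 * (g + 1) ≤ 4 ^ g := by exact_mod_cast h
  have h2 : ((((g.choose (g / 2) : ℕ) : ℝ)) * Real.sqrt B) ^ 2 ≤ (2 ^ g) ^ 2 := by
    rw [mul_pow, Real.sq_sqrt hB0.le]
    have h3 : ((2 : ℝ) ^ g) ^ 2 = 4 ^ g := by
      rw [← pow_mul, mul_comm, pow_mul]; norm_num
    rw [h3]
    refine le_trans ?_ h1
    have : (B : ℝ) ≤ g + 1 := by
      have : (B : ℝ) ≤ g := by exact_mod_cast hg
      linarith
    gcongr
  exact le_of_sq_le_sq h2 (by positivity)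

variable {α : Type*} [DecidableEq α]

/-- The Littlewood-Offord inequality of Erdős: the number of subsets `S` of `I` whose sum lies in a
half open interval of length `d`, where `|a i| ≥ d` on `G ⊆ I`. -/
theorem littlewood_offord (I G : Finset α) (hGI : G ⊆ I) (a : α → ℝ) (d : ℝ) (hd : 0 < d)
    (hG : ∀ i ∈ G, d ≤ |a i|) (t : ℝ) :
    (I.powerset.filter (fun S => t ≤ ∑ i ∈ S, a i ∧ ∑ i ∈ S, a i < t + d)).card ≤
      2 ^ (I.card - G.card) * G.card.choose (G.card / 2) := by
  classical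
  set F := I.powerset.filter (fun S => t ≤ ∑ i ∈ S, a i ∧ ∑ i ∈ S, a i < t + d) with hF
  have hFmem : ∀ S, S ∈ F ↔ S ⊆ I ∧ t ≤ ∑ i ∈ S, a i ∧ ∑ i ∈ S, a i < t + d := by
    intro S; rw [hF, mem_filter, mem_powerset]
  -- the fibres of `S ↦ S \ G`
  have hfib : ∀ T ∈ F.image (fun S => S \ G),
      (F.filter (fun S => S \ G = T)).card ≤ G.card.choose (G.card / 2) := by
    intro T _
    let φ : Finset α → Finset G := fun S => univ.filter (fun v : G => (v.1 ∈ S ↔ 0 ≤ a v.1))
    have hφ : ∀ S (v : G), v ∈ φ S ↔ (v.1 ∈ S ↔ 0 ≤ a v.1) := by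
      intro S v; simp [φ]
    -- the sum over `S` in terms of `φ S`
    have hsum : ∀ S ⊆ I, S \ G = T → ∑ i ∈ S, a i =
        ∑ i ∈ T, a i + (∑ v ∈ φ S, |a v.1| - ∑ v : G, (if a v.1 < 0 then |a v.1| else 0)) := by
      intro S hS hST
      have h1 : ∑ i ∈ S, a i = ∑ i ∈ S \ G, a i + ∑ i ∈ S ∩ G, a i := by
        rw [← Finset.sum_union (by
          rw [Finset.disjoint_left]; intro x hx hx'
          exact (mem_sdiff.1 hx).2 (mem_inter.1 hx').2), Finset.sdiff_union_inter]
      rw [h1, hST]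
      congr 1
      have h2 : ∑ i ∈ S ∩ G, a i = ∑ v : G, (if v.1 ∈ S then a v.1 else 0) := by
        have : ∑ v : G, (if v.1 ∈ S then a v.1 else 0) = ∑ i ∈ G, (if i ∈ S then a i else 0) :=
          Finset.sum_coe_sort G (fun i => if i ∈ S then a i else 0)
        rw [this, ← Finset.sum_filter]
        apply Finset.sum_congr _ (fun _ _ => rfl)
        ext i; simp [and_comm]
      have h3 : ∑ v ∈ φ S, |a v.1| = ∑ v : G, (if v ∈ φ S then |a v.1| else 0) := by
        rw [← Finset.sum_filter]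
        apply Finset.sum_congr _ (fun _ _ => rfl)
        ext v; simp
      rw [h2, h3, ← Finset.sum_sub_distrib]
      apply Finset.sum_congr rfl
      intro v _
      rcases le_or_gt 0 (a v.1) with h | h
      · have hn : ¬ (a v.1 < 0) := not_lt.2 h
        by_cases hv : v.1 ∈ S
        · have : v ∈ φ S := by rw [hφ]; exact ⟨fun _ => h, fun _ => hv⟩
          simp [hv, this, hn, abs_of_nonneg h]
        · have : v ∉ φ S := by rw [hφ]; exact fun H => hv (H.2 h)
          simp [hv, this, hn]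
      · have hn : ¬ (0 ≤ a v.1) := not_le.2 h
        by_cases hv : v.1 ∈ S
        · have : v ∉ φ S := by rw [hφ]; exact fun H => hn (H.1 hv)
          simp [hv, this, h, abs_of_neg h]
        · have : v ∈ φ S := by rw [hφ]; exact ⟨fun H => absurd H hv, fun H => absurd H hn⟩
          simp [hv, this, h]
    have hinj : Set.InjOn φ (F.filter (fun S => S \ G = T) : Set (Finset α)) := by
      intro S hS S' hS' hSS
      have hS1 := (mem_filter.1 (mem_coe.1 hS))
      have hS2 := (mem_filter.1 (mem_coe.1 hS'))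
      ext i
      by_cases hi : i ∈ G
      · have h1 := hφ S ⟨i, hi⟩
        have h2 := hφ S' ⟨i, hi⟩
        have h3 : (⟨i, hi⟩ : G) ∈ φ S ↔ (⟨i, hi⟩ : G) ∈ φ S' := by rw [hSS]
        simp only at h1 h2
        tauto
      · have h1 : i ∈ S ↔ i ∈ S \ G := by simp [hi]
        have h2 : i ∈ S' ↔ i ∈ S' \ G := by simp [hi]
        rw [h1, h2, hS1.2, hS2.2]
    rw [← Finset.card_image_of_injOn hinj]
    have hanti : IsAntichain (· ⊆ ·)
        (((F.filter (fun S => S \ G = T)).image φ : Finset (Finset G)) : Set (Finset G)) := by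
      intro A hA B hB hne hAB
      rw [mem_coe, mem_image] at hA hB
      obtain ⟨S, hS, rfl⟩ := hA
      obtain ⟨S', hS', rfl⟩ := hB
      rw [mem_filter, hFmem] at hS hS'
      have e1 := hsum S hS.1.1 hS.2
      have e2 := hsum S' hS'.1.1 hS'.2
      have hss : φ S ⊂ φ S' := lt_of_le_of_ne hAB hne
      obtain ⟨v, hv, hv'⟩ := Finset.exists_of_ssubset hss
      have h3 : ∑ v ∈ φ S, |a v.1| + |a v.1| ≤ ∑ v ∈ φ S', |a v.1| := by
        have h30 : ∑ w ∈ insert v (φ S), |a w.1| = |a v.1| + ∑ w ∈ φ S, |a w.1| :=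
          Finset.sum_insert hv'
        rw [add_comm, ← h30]
        apply Finset.sum_le_sum_of_subset_of_nonneg
        · intro w hw
          rcases mem_insert.1 hw with rfl | hw
          · exact hv
          · exact hAB hw
        · intro _ _ _; exact abs_nonneg _
      have h4 := hG v.1 v.2
      linarith [hS.1.2.1, hS'.1.2.2]
    have := hanti.sperner
    simpa using this
  have h1 := Finset.card_le_mul_card_image (f := fun S => S \ G) F _ hfib
  have h2 : (F.image (fun S => S \ G)).card ≤ 2 ^ (I.card - G.card) := by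
    rw [← Finset.card_sdiff_of_subset hGI, ← Finset.card_powerset]
    apply Finset.card_le_card
    intro T hT
    obtain ⟨S, hS, rfl⟩ := mem_image.1 hT
    rw [mem_powerset]
    exact Finset.sdiff_subset_sdiff ((hFmem S).1 hS).1 (le_refl _)
  calc F.card ≤ _ := h1
    _ ≤ G.card.choose (G.card / 2) * 2 ^ (I.card - G.card) := Nat.mul_le_mul_left _ h2
    _ = _ := mul_comm _ _

/-- The same with a closed interval of length at most `m d`, and the final form of the bound. -/
theorem littlewood_offord' (I G : Finset α) (hGI : G ⊆ I) (a : α → ℝ) (d : ℝ) (hd : 0 < d)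
    (hG : ∀ i ∈ G, d ≤ |a i|) (B : ℕ) (hB : 1 ≤ B) (hBG : B ≤ G.card) (m : ℕ) (t r : ℝ)
    (hr : r < m * d) :
    (((I.powerset.filter (fun S => t ≤ ∑ i ∈ S, a i ∧ ∑ i ∈ S, a i ≤ t + r)).card : ℕ) : ℝ) ≤
      m * (2 ^ I.card / Real.sqrt B) := by
  classical
  have h1 : I.powerset.filter (fun S => t ≤ ∑ i ∈ S, a i ∧ ∑ i ∈ S, a i ≤ t + r) ⊆
      (range m).biUnion (fun k => I.powerset.filter
        (fun S => t + k * d ≤ ∑ i ∈ S, a i ∧ ∑ i ∈ S, a i < t + k * d + d)) := by
    intro S hS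
    rw [mem_filter] at hS
    obtain ⟨hS1, hS2, hS3⟩ := hS
    set y := (∑ i ∈ S, a i - t) / d with hy
    have hy0 : 0 ≤ y := div_nonneg (by linarith) hd.le
    have hym : y < m := by
      rw [hy, div_lt_iff₀ hd]; linarith
    rw [mem_biUnion]
    refine ⟨⌊y⌋₊, ?_, ?_⟩
    · rw [mem_range]
      exact (Nat.floor_lt hy0).2 hym
    · rw [mem_filter]
      have h2 : (⌊y⌋₊ : ℝ) ≤ y := Nat.floor_le hy0
      have h3 : y < ⌊y⌋₊ + 1 := Nat.lt_floor_add_one y
      have h4 : y * d = ∑ i ∈ S, a i - t := by rw [hy]; field_simp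
      refine ⟨hS1, ?_, ?_⟩
      · nlinarith
      · nlinarith
  have h2 := (Finset.card_le_card h1).trans Finset.card_biUnion_le
  have h3 : ∀ k ∈ range m, (((I.powerset.filter
        (fun S => t + k * d ≤ ∑ i ∈ S, a i ∧ ∑ i ∈ S, a i < t + k * d + d)).card : ℕ) : ℝ) ≤
        2 ^ I.card / Real.sqrt B := by
    intro k _
    have h4 := littlewood_offord I G hGI a d hd hG (t + k * d)
    have h5 := choose_half_le G.card B hB hBG
    have hc : G.card ≤ I.card := Finset.card_le_card hGI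
    calc _ ≤ ((2 ^ (I.card - G.card) * G.card.choose (G.card / 2) : ℕ) : ℝ) := by
          exact_mod_cast h4
      _ = 2 ^ (I.card - G.card) * ((G.card.choose (G.card / 2) : ℕ) : ℝ) := by push_cast; ring
      _ ≤ 2 ^ (I.card - G.card) * (2 ^ G.card / Real.sqrt B) := by gcongr
      _ = 2 ^ I.card / Real.sqrt B := by
          rw [← mul_div_assoc, ← pow_add, Nat.sub_add_cancel hc]
  calc _ ≤ ((∑ k ∈ range m, (I.powerset.filter
        (fun S => t + k * d ≤ ∑ i ∈ S, a i ∧ ∑ i ∈ S, a i < t + k * d + d)).card : ℕ) : ℝ) := by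
        exact_mod_cast h2
    _ = ∑ k ∈ range m, (((I.powerset.filter
        (fun S => t + k * d ≤ ∑ i ∈ S, a i ∧ ∑ i ∈ S, a i < t + k * d + d)).card : ℕ) : ℝ) := by
        push_cast; rfl
    _ ≤ ∑ _k ∈ range m, 2 ^ I.card / Real.sqrt B := Finset.sum_le_sum h3
    _ = m * (2 ^ I.card / Real.sqrt B) := by simp

end Pool.Agent.ZN
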