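import Pool.Agent.ZN.Blk

/-!
A choice of the blocks for which the bad set is small.
-/

open Finset Real MeasureTheory

namespace Pool.Agent.ZN

/-- the bad set of `S` -/
noncomputable def Bad (S : Finset (ℕ × ℕ)) : Set ℝ :=
  {x | x ∈ Set.Ioc 0 π ∧ 2 * sin (x / 2) * |∑ p ∈ S, D p x + 1 / 2| ≤ 1}

lemma D_cont (p : ℕ × ℕ) : Continuous (D p) := by unfold D; fun_prop

lemma Bad_meas (S : Finset (ℕ × ℕ)) : MeasurableSet (Bad S) := by
  have : Bad S = Set.Ioc 0 π ∩ {x | 2 * sin (x / 2) * |∑ p ∈ S, D p x + 1 / 2| ≤ 1} := rfl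
  rw [this]
  apply measurableSet_Ioc.inter
  apply IsClosed.measurableSet
  apply isClosed_le _ continuous_const
  have h : Continuous (fun x => ∑ p ∈ S, D p x) := continuous_finsetSum S (fun p _ => D_cont p)
  fun_prop

/-- the pieces -/
noncomputable def piece (j : ℕ) : Set ℝ := Set.Ioc (π / 45 ^ (j + 1)) (π / 45 ^ j)

lemma cover (m : ℕ) : Set.Ioc 0 π ⊆ (⋃ j ∈ range m, piece j) ∪ Set.Ioc 0 (π / 45 ^ m) := by
  induction m with
  | zero => intro x hx; right; simpa using hx
  | succ m ih =>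
    intro x hx
    rcases ih hx with h | h
    · left
      simp only [Set.mem_iUnion] at h ⊢
      obtain ⟨j, hj, h⟩ := h
      exact ⟨j, by rw [mem_range] at hj ⊢; omega, h⟩
    · by_cases h2 : x ≤ π / 45 ^ (m + 1)
      · right; exact ⟨h.1, h2⟩
      · left
        simp only [Set.mem_iUnion]
        exact ⟨m, by rw [mem_range]; omega, not_le.1 h2, h.2⟩

lemma sum_piece (L j : ℕ) (hj : j ≤ L) : ∑ S ∈ (Idx L).powerset, volume (Bad S ∩ piece j) ≤
    ENNReal.ofReal (142 * (2 ^ (Idx L).card / 15 ^ (L - j)) * (π / 45 ^ j)) := by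
  classical
  have h1 : ∀ S, volume (Bad S ∩ piece j) = ∫⁻ x in piece j, (Bad S).indicator 1 x := by
    intro S
    rw [lintegral_indicator_one (Bad_meas S), Measure.restrict_apply (Bad_meas S)]
  simp_rw [h1]
  rw [← lintegral_finsetSum _ (fun S _ => (measurable_one.indicator (Bad_meas S)))]
  have h2 : ∀ x ∈ piece j, ∑ S ∈ (Idx L).powerset, (Bad S).indicator (1 : ℝ → ENNReal) x ≤
      ENNReal.ofReal (142 * (2 ^ (Idx L).card / 15 ^ (L - j))) := by
    intro x hx
    have h3 : ∑ S ∈ (Idx L).powerset, (Bad S).indicator (1 : ℝ → ENNReal) x =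
        (((Idx L).powerset.filter (fun S => x ∈ Bad S)).card : ENNReal) := by
      rw [Finset.card_filter]
      push_cast
      apply Finset.sum_congr rfl
      intro S _
      by_cases h : x ∈ Bad S <;> simp [h]
    rw [h3]
    have h4 : ((Idx L).powerset.filter (fun S => x ∈ Bad S)).card ≤
      ((Idx L).powerset.filter
        (fun S => 2 * sin (x / 2) * |∑ p ∈ S, D p x + 1 / 2| ≤ 1)).card := by
      apply Finset.card_le_card
      intro S hS
      rw [mem_filter] at hS ⊢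
      exact ⟨hS.1, hS.2.2⟩
    have h5 := count_bad L j hj x hx.1 hx.2
    have h6 : ((((Idx L).powerset.filter (fun S => x ∈ Bad S)).card : ℕ) : ℝ) ≤
        142 * (2 ^ (Idx L).card / 15 ^ (L - j)) := le_trans (by exact_mod_cast h4) h5
    rw [← ENNReal.ofReal_natCast]
    exact ENNReal.ofReal_le_ofReal h6
  calc _ ≤ ∫⁻ _x in piece j, ENNReal.ofReal (142 * (2 ^ (Idx L).card / 15 ^ (L - j))) := by
        apply setLIntegral_mono' measurableSet_Ioc h2
    _ = ENNReal.ofReal (142 * (2 ^ (Idx L).card / 15 ^ (L - j))) * volume (piece j) := by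
        rw [setLIntegral_const]
    _ ≤ ENNReal.ofReal (142 * (2 ^ (Idx L).card / 15 ^ (L - j))) *
        ENNReal.ofReal (π / 45 ^ j) := by
        gcongr
        unfold piece
        rw [Real.volume_Ioc]
        apply ENNReal.ofReal_le_ofReal
        have : 0 ≤ π / 45 ^ (j + 1) := by positivity
        linarith
    _ = _ := by rw [← ENNReal.ofReal_mul (by positivity)]

lemma geo (L : ℕ) : ∑ j ∈ range (L + 1), (142 : ℝ) * (2 ^ (Idx L).card / 15 ^ (L - j)) *
    (π / 45 ^ j) + 2 ^ (Idx L).card * (π / 45 ^ (L + 1)) ≤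
    2 ^ (Idx L).card * (214 * π / 15 ^ L) := by
  have h1 : ∀ j ∈ range (L + 1), (142 : ℝ) * (2 ^ (Idx L).card / 15 ^ (L - j)) * (π / 45 ^ j) =
      2 ^ (Idx L).card * (142 * π / 15 ^ L) * (1 / 3) ^ j := by
    intro j hj
    rw [mem_range] at hj
    have h2 : (15 : ℝ) ^ L = 15 ^ (L - j) * 15 ^ j := by
      rw [← pow_add]; congr 1; omega
    have h3 : (45 : ℝ) ^ j = 15 ^ j * 3 ^ j := by rw [← mul_pow]; norm_num
    rw [h2, h3, one_div, inv_pow]
    field_simp
  rw [Finset.sum_congr rfl h1, ← Finset.mul_sum]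
  have h2 : ∑ j ∈ range (L + 1), ((1 : ℝ) / 3) ^ j ≤ 3 / 2 := by
    have := geom_sum_eq (x := (1 : ℝ) / 3) (by norm_num) (L + 1)
    rw [this]
    have h3 : (0 : ℝ) < (1 / 3) ^ (L + 1) := by positivity
    rw [div_le_iff_of_neg (by norm_num)]
    linarith
  have h3 : π / 45 ^ (L + 1) ≤ π / 15 ^ L := by
    apply div_le_div_of_nonneg_left pi_pos.le (by positivity)
    calc (15 : ℝ) ^ L ≤ 45 ^ L := by gcongr; norm_num
      _ ≤ 45 ^ (L + 1) := by rw [pow_succ]; nlinarith [show (0 : ℝ) < 45 ^ L by positivity]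
  have h4 : (0 : ℝ) < 2 ^ (Idx L).card * (142 * π / 15 ^ L) := by positivity
  have h5 : (0 : ℝ) < 2 ^ (Idx L).card := by positivity
  calc _ ≤ 2 ^ (Idx L).card * (142 * π / 15 ^ L) * (3 / 2) + 2 ^ (Idx L).card * (π / 15 ^ L) := by
        gcongr
    _ = _ := by ring

theorem exists_S (L : ℕ) : ∃ S ⊆ Idx L, volume (Bad S) ≤ ENNReal.ofReal (214 * π / 15 ^ L) := by
  classical
  by_contra hcon
  push Not at hcon
  have h1 : ∀ S ∈ (Idx L).powerset, ENNReal.ofReal (214 * π / 15 ^ L) < volume (Bad S) :=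
    fun S hS => hcon S (mem_powerset.1 hS)
  have h2 : ∑ _S ∈ (Idx L).powerset, ENNReal.ofReal (214 * π / 15 ^ L) <
      ∑ S ∈ (Idx L).powerset, volume (Bad S) :=
    ENNReal.sum_lt_sum_of_nonempty ⟨∅, by simp⟩ h1
  have h3 : ∑ S ∈ (Idx L).powerset, volume (Bad S) ≤
      ∑ S ∈ (Idx L).powerset, (∑ j ∈ range (L + 1), volume (Bad S ∩ piece j) +
        volume (Set.Ioc 0 (π / 45 ^ (L + 1)))) := by
    apply Finset.sum_le_sum
    intro S _
    have h4 : Bad S ⊆ (⋃ j ∈ range (L + 1), (Bad S ∩ piece j)) ∪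
        Set.Ioc 0 (π / 45 ^ (L + 1)) := by
      intro x hx
      rcases cover (L + 1) hx.1 with h | h
      · left
        simp only [Set.mem_iUnion] at h ⊢
        obtain ⟨j, hj, h⟩ := h
        exact ⟨j, hj, hx, h⟩
      · right; exact h
    refine (measure_mono h4).trans ((measure_union_le _ _).trans ?_)
    gcongr
    exact measure_biUnion_finset_le _ _
  rw [Finset.sum_add_distrib, Finset.sum_comm] at h3
  have h5 : ∑ j ∈ range (L + 1), ∑ S ∈ (Idx L).powerset, volume (Bad S ∩ piece j) ≤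
      ∑ j ∈ range (L + 1),
        ENNReal.ofReal (142 * (2 ^ (Idx L).card / 15 ^ (L - j)) * (π / 45 ^ j)) := by
    apply Finset.sum_le_sum
    intro j hj
    rw [mem_range] at hj
    exact sum_piece L j (by omega)
  have h6 : ∑ _S ∈ (Idx L).powerset, volume (Set.Ioc 0 (π / 45 ^ (L + 1))) =
      ENNReal.ofReal (2 ^ (Idx L).card * (π / 45 ^ (L + 1))) := by
    rw [Finset.sum_const, Finset.card_powerset, Real.volume_Ioc, sub_zero,
      ENNReal.ofReal_mul (by positivity), nsmul_eq_mul]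
    congr 1
    rw [← ENNReal.ofReal_natCast]; push_cast; rfl
  have h7 : ∑ _S ∈ (Idx L).powerset, ENNReal.ofReal (214 * π / 15 ^ L) =
      ENNReal.ofReal (2 ^ (Idx L).card * (214 * π / 15 ^ L)) := by
    rw [Finset.sum_const, Finset.card_powerset, ENNReal.ofReal_mul (by positivity), nsmul_eq_mul]
    congr 1
    rw [← ENNReal.ofReal_natCast]; push_cast; rfl
  rw [h7] at h2
  rw [h6] at h3
  have h8 := h2.trans_le (h3.trans (add_le_add_left h5 _))
  rw [← ENNReal.ofReal_sum_of_nonneg (fun j _ => by positivity),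
    ← ENNReal.ofReal_add (Finset.sum_nonneg (fun j _ => by positivity)) (by positivity)] at h8
  exact absurd (ENNReal.ofReal_le_ofReal (geo L)) (not_le.2 h8)

end Pool.Agent.ZN
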