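import Pool.Agent.ZN.Meas

/-!
Counting the zeros.
-/

open Finset Real MeasureTheory Polynomial

namespace Pool.Agent.ZN

/-- Rolle's theorem for finitely many zeros. -/
lemma rolle_fin {s : Set ℝ} (hs : s.OrdConnected) (φ φ' : ℝ → ℝ)
    (hd : ∀ x ∈ s, HasDerivAt φ (φ' x) x) (F : Finset ℝ) (hF : ∀ x ∈ F, x ∈ s ∧ φ x = 0) :
    ∃ W : Finset ℝ, (∀ x ∈ W, x ∈ s ∧ φ' x = 0) ∧ F.card ≤ W.card + 1 := by
  classical
  rcases Nat.eq_zero_or_pos F.card with h0 | h0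
  · exact ⟨∅, by simp, by omega⟩
  obtain ⟨m, hm⟩ : ∃ m, F.card = m + 1 := ⟨F.card - 1, by omega⟩
  let z : Fin (m + 1) ↪o ℝ := F.orderEmbOfFin hm
  have hz : ∀ i, z i ∈ F := fun i => F.orderEmbOfFin_mem hm i
  have key : ∀ i : Fin m, ∃ c ∈ Set.Ioo (z i.castSucc) (z i.succ), φ' c = 0 := by
    intro i
    have hlt : z i.castSucc < z i.succ := z.strictMono Fin.castSucc_lt_succ
    have hsub : Set.Icc (z i.castSucc) (z i.succ) ⊆ s :=
      hs.out (hF _ (hz _)).1 (hF _ (hz _)).1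
    apply exists_hasDerivAt_eq_zero hlt
    · intro x hx
      exact (hd x (hsub hx)).continuousAt.continuousWithinAt
    · rw [(hF _ (hz _)).2, (hF _ (hz _)).2]
    · intro x hx
      exact hd x (hsub (Set.Ioo_subset_Icc_self hx))
  choose c hc hc0 using key
  have hmono : StrictMono c := by
    intro i j hij
    have h1 : c i < z i.succ := (hc i).2
    have h2 : z j.castSucc < c j := (hc j).1
    have h3 : z i.succ ≤ z j.castSucc := by
      apply z.monotone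
      rw [Fin.le_def]
      simp only [Fin.val_succ, Fin.val_castSucc]
      exact hij
    linarith
  refine ⟨univ.image c, ?_, ?_⟩
  · intro x hx
    obtain ⟨i, _, rfl⟩ := mem_image.1 hx
    refine ⟨?_, hc0 i⟩
    exact hs.out (hF _ (hz i.castSucc)).1 (hF _ (hz i.succ)).1
      (Set.Ioo_subset_Icc_self (hc i))
  · rw [Finset.card_image_of_injective _ hmono.injective]
    simp [hm]

/-- Zeros in a short interval, by disconjugacy of `y'' + ν² y`. -/
lemma cell_zeros (a b ν : ℝ) (hν : 0 < ν) (hab : ν * (b - a) < π) (h h1 h2 : ℝ → ℝ)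
    (hd1 : ∀ x, HasDerivAt h (h1 x) x) (hd2 : ∀ x, HasDerivAt h1 (h2 x) x)
    (F : Finset ℝ) (hF : ∀ x ∈ F, x ∈ Set.Ioc a b ∧ h x = 0) :
    ∃ W : Finset ℝ, (∀ x ∈ W, x ∈ Set.Ioc a b ∧ h2 x + ν ^ 2 * h x = 0) ∧
      F.card ≤ W.card + 2 := by
  set v : ℝ → ℝ := fun x => sin (ν * (x - a)) with hv
  set v1 : ℝ → ℝ := fun x => ν * cos (ν * (x - a)) with hv1
  have hvpos : ∀ x ∈ Set.Ioc a b, 0 < v x := by
    intro x hx
    apply sin_pos_of_pos_of_lt_pi
    · exact mul_pos hν (by linarith [hx.1])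
    · have : ν * (x - a) ≤ ν * (b - a) := mul_le_mul_of_nonneg_left (by linarith [hx.2]) hν.le
      linarith
  have hdv : ∀ x, HasDerivAt v (v1 x) x := by
    intro x
    have h1 : HasDerivAt (fun x => ν * (x - a)) (ν * 1) x :=
      ((hasDerivAt_id x).sub_const a).const_mul ν
    have := h1.sin
    have e : v1 x = cos (ν * (x - a)) * (ν * 1) := by simp only [hv1]; ring
    rw [e]
    exact this
  have hdv1 : ∀ x, HasDerivAt v1 (-ν ^ 2 * v x) x := by
    intro x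
    have h1 : HasDerivAt (fun x => ν * (x - a)) (ν * 1) x :=
      ((hasDerivAt_id x).sub_const a).const_mul ν
    have := h1.cos.const_mul ν
    have e : -ν ^ 2 * v x = ν * (-sin (ν * (x - a)) * (ν * 1)) := by simp only [hv]; ring
    rw [e]
    exact this
  -- first step
  obtain ⟨W1, hW1, hc1⟩ := rolle_fin (s := Set.Ioc a b) Set.ordConnected_Ioc
    (fun x => h x / v x) (fun x => (h1 x * v x - h x * v1 x) / v x ^ 2)
    (fun x hx => (hd1 x).div (hdv x) (hvpos x hx).ne') F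
    (fun x hx => ⟨(hF x hx).1, by simp [(hF x hx).2]⟩)
  -- second step
  obtain ⟨W2, hW2, hc2⟩ := rolle_fin (s := Set.Ioc a b) Set.ordConnected_Ioc
    (fun x => h1 x * v x - h x * v1 x) (fun x => (h2 x + ν ^ 2 * h x) * v x)
    (fun x _ => by
      have e1 := ((hd2 x).mul (hdv x)).sub ((hd1 x).mul (hdv1 x))
      have e : (h2 x + ν ^ 2 * h x) * v x = h2 x * v x + h1 x * v1 x -
          (h1 x * v1 x + h x * (-ν ^ 2 * v x)) := by ring
      simp only [e]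
      exact e1) W1
    (fun x hx => by
      have e1 := hW1 x hx
      refine ⟨e1.1, ?_⟩
      have e2 := e1.2
      rw [div_eq_zero_iff] at e2
      rcases e2 with e2 | e2
      · exact e2
      · exact absurd e2 (pow_ne_zero 2 (hvpos x e1.1).ne'))
  refine ⟨W2, fun x hx => ?_, by omega⟩
  have e1 := hW2 x hx
  refine ⟨e1.1, ?_⟩
  exact (mul_eq_zero.1 e1.2).resolve_right (hvpos x e1.1).ne'

/-- the polynomial in `cos x` attached to `S` -/
noncomputable def Q (S : Finset (ℕ × ℕ)) : ℝ[X] :=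
  C (1 / 2) + ∑ p ∈ S, ∑ k ∈ blk p, Chebyshev.T ℝ (k : ℤ)

lemma Q_cos (S : Finset (ℕ × ℕ)) (x : ℝ) : (Q S).eval (cos x) = ∑ p ∈ S, D p x + 1 / 2 := by
  unfold Q D
  rw [eval_add, eval_C, eval_finsetSum, add_comm]
  congr 1
  apply Finset.sum_congr rfl
  intro p _
  rw [eval_finsetSum]
  apply Finset.sum_congr rfl
  intro k _
  rw [Chebyshev.T_real_cos]
  push_cast
  rfl

lemma blk_lt (L : ℕ) (p : ℕ × ℕ) (hp : p ∈ Idx L) (k : ℕ) (hk : k ∈ blk p) :
    1 ≤ k ∧ k < 4 * 225 ^ L := by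
  rw [mem_Idx] at hp
  unfold blk at hk
  rw [mem_Ico] at hk
  have h1 := ell_eq p.1
  have h2 : 1 ≤ 225 ^ (L - p.1) := Nat.one_le_pow _ _ (by norm_num)
  have h3 : 45 ^ p.1 ≤ p.2 * 45 ^ p.1 := Nat.le_mul_of_pos_left _ (by omega)
  constructor
  · omega
  · have h4 : (p.2 + 1) * 45 ^ p.1 ≤ 4 * 225 ^ (L - p.1) * 45 ^ p.1 :=
      Nat.mul_le_mul_right _ hp.2.2
    have h5 : 4 * 225 ^ (L - p.1) * 45 ^ p.1 ≤ 4 * 225 ^ (L - p.1) * 225 ^ p.1 := by
      apply Nat.mul_le_mul_left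
      exact Nat.pow_le_pow_left (by norm_num) _
    have h6 : 4 * 225 ^ (L - p.1) * 225 ^ p.1 = 4 * 225 ^ L := by
      rw [mul_assoc, ← pow_add, Nat.sub_add_cancel hp.1]
    have h7 : (p.2 + 1) * 45 ^ p.1 = p.2 * 45 ^ p.1 + 45 ^ p.1 := by ring
    omega

lemma natDegree_Q (L : ℕ) (S : Finset (ℕ × ℕ)) (hS : S ⊆ Idx L) :
    (Q S).natDegree ≤ 4 * 225 ^ L := by
  unfold Q
  refine (natDegree_add_le _ _).trans (max_le (by simp) ?_)
  apply natDegree_sum_le_of_forall_le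
  intro p hp
  apply natDegree_sum_le_of_forall_le
  intro k hk
  rw [Chebyshev.natDegree_T]
  have := (blk_lt L p (hS hp) k hk).2
  simp only [Int.natAbs_natCast]
  omega

/-- the number of frequencies used -/
def cnt (S : Finset (ℕ × ℕ)) : ℕ := ∑ p ∈ S, (blk p).card

lemma Q_one (S : Finset (ℕ × ℕ)) : (Q S).eval 1 = cnt S + 1 / 2 := by
  have h := Q_cos S 0
  rw [cos_zero] at h
  rw [h]
  unfold cnt D
  push_cast
  congr 1
  apply Finset.sum_congr rfl
  intro p _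
  simp

lemma Q_deriv_one (L : ℕ) (S : Finset (ℕ × ℕ)) (hS : S ⊆ Idx L) :
    (derivative (Q S)).eval 1 ≤ (4 * 225 ^ L) ^ 2 * cnt S := by
  unfold Q cnt
  rw [derivative_add, derivative_C, zero_add, derivative_sum, eval_finsetSum]
  push_cast
  rw [Finset.mul_sum]
  apply Finset.sum_le_sum
  intro p hp
  rw [derivative_sum, eval_finsetSum]
  have h1 : ∀ k ∈ blk p, (derivative (Chebyshev.T ℝ (k : ℤ))).eval 1 ≤ (4 * 225 ^ L) ^ 2 := by
    intro k hk
    rw [Chebyshev.T_derivative_eq_U, eval_mul, Chebyshev.U_eval_one]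
    have h2 : (k : ℝ) ≤ 4 * 225 ^ L := by
      exact_mod_cast (blk_lt L p (hS hp) k hk).2.le
    have h3 : (0 : ℝ) ≤ k := by positivity
    simp only [Int.cast_natCast, eval_natCast, Int.cast_sub, Int.cast_one]
    nlinarith
  calc _ ≤ ∑ _k ∈ blk p, ((4 : ℝ) * 225 ^ L) ^ 2 := Finset.sum_le_sum h1
    _ = _ := by rw [Finset.sum_const, nsmul_eq_mul]; ring

/-- the polynomial `W` with `(u'' + ν² u) = sin(x/2) W(cos x)` -/
noncomputable def Wp (S : Finset (ℕ × ℕ)) (ν : ℝ) : ℝ[X] :=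
  C (1 / 2 - 2 * ν ^ 2) * Q S + (2 + 4 * X) * derivative (Q S) -
    2 * (1 - X ^ 2) * derivative (derivative (Q S))

lemma Wp_one (L : ℕ) (S : Finset (ℕ × ℕ)) (hS : S ⊆ Idx L) (ν : ℝ) (hν : 2 * (4 * 225 ^ L) ≤ ν) :
    (Wp S ν).eval 1 < 0 := by
  unfold Wp
  have h1 := Q_one S
  have h2 := Q_deriv_one L S hS
  simp only [eval_sub, eval_add, eval_mul, eval_C, eval_X, eval_pow, eval_one, eval_ofNat]
  rw [h1]
  set K : ℝ := 4 * 225 ^ L with hK
  have hK1 : (1 : ℝ) ≤ K := by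
    rw [hK]; have : (1 : ℝ) ≤ 225 ^ L := one_le_pow₀ (by norm_num)
    linarith
  have hc : (0 : ℝ) ≤ cnt S := by positivity
  have h3 : 4 * K ^ 2 ≤ ν ^ 2 := by nlinarith
  have h4 : (1 / 2 - 2 * ν ^ 2) * ((cnt S : ℝ) + 1 / 2) ≤
      (1 / 2 - 8 * K ^ 2) * ((cnt S : ℝ) + 1 / 2) := by
    apply mul_le_mul_of_nonneg_right _ (by linarith)
    linarith
  have h5 : (0 : ℝ) ≤ (K ^ 2 - 1) * cnt S := mul_nonneg (by nlinarith) hc
  nlinarith

lemma natDegree_Wp (L : ℕ) (S : Finset (ℕ × ℕ)) (hS : S ⊆ Idx L) (ν : ℝ) :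
    (Wp S ν).natDegree ≤ 4 * 225 ^ L := by
  have hQ := natDegree_Q L S hS
  have h1 : (derivative (Q S)).natDegree ≤ 4 * 225 ^ L - 1 :=
    (natDegree_derivative_le _).trans (Nat.sub_le_sub_right hQ 1)
  have h2 : (derivative (derivative (Q S))).natDegree ≤ 4 * 225 ^ L - 1 - 1 :=
    (natDegree_derivative_le _).trans (Nat.sub_le_sub_right h1 1)
  have hK : 4 ≤ 4 * 225 ^ L := by
    have : 1 ≤ 225 ^ L := Nat.one_le_pow _ _ (by norm_num)
    omega
  unfold Wp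
  refine (natDegree_sub_le _ _).trans (max_le ?_ ?_)
  · refine (natDegree_add_le _ _).trans (max_le ?_ ?_)
    · exact (natDegree_C_mul_le _ _).trans hQ
    · refine natDegree_mul_le.trans ?_
      have : (2 + 4 * X : ℝ[X]).natDegree ≤ 1 := by compute_degree
      omega
  · refine natDegree_mul_le.trans ?_
    have : (2 * (1 - X ^ 2) : ℝ[X]).natDegree ≤ 2 := by compute_degree
    omega

/-- the polynomial `G` with `Bad = {G(cos x) ≤ 0}` -/
noncomputable def Gp (S : Finset (ℕ × ℕ)) : ℝ[X] := 2 * (1 - X) * Q S ^ 2 - 1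

lemma Gp_one (S : Finset (ℕ × ℕ)) : (Gp S).eval 1 = -1 := by
  unfold Gp; simp

lemma natDegree_Gp (L : ℕ) (S : Finset (ℕ × ℕ)) (hS : S ⊆ Idx L) :
    (Gp S).natDegree ≤ 2 * (4 * 225 ^ L) + 1 := by
  have hQ := natDegree_Q L S hS
  unfold Gp
  refine (natDegree_sub_le _ _).trans (max_le ?_ (by simp))
  refine natDegree_mul_le.trans ?_
  have h1 : (2 * (1 - X) : ℝ[X]).natDegree ≤ 1 := by compute_degree
  have h2 : (Q S ^ 2).natDegree ≤ 2 * (4 * 225 ^ L) :=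
    natDegree_pow_le.trans (Nat.mul_le_mul_left 2 hQ)
  omega

/-- zeros of `P(cos x)` in `(0,π]` -/
lemma zeros_le (P : ℝ[X]) (hP : P ≠ 0) (F : Finset ℝ)
    (hF : ∀ x ∈ F, x ∈ Set.Ioc 0 π ∧ P.eval (cos x) = 0) : F.card ≤ P.natDegree := by
  classical
  have hinj : Set.InjOn cos (F : Set ℝ) := by
    intro x hx y hy hxy
    have h1 := (hF x hx).1
    have h2 := (hF y hy).1
    exact injOn_cos ⟨h1.1.le, h1.2⟩ ⟨h2.1.le, h2.2⟩ hxy
  rw [← Finset.card_image_of_injOn hinj]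
  apply Polynomial.card_le_degree_of_subset_roots
  intro y hy
  rw [Finset.mem_val, mem_image] at hy
  obtain ⟨x, hx, rfl⟩ := hy
  rw [mem_roots hP]
  exact (hF x hx).2

end Pool.Agent.ZN
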